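import Mathlib

open MeasureTheory Set Module
open scoped ENNReal

namespace Pool.Agent.Y511.SurfDom

abbrev E3 := EuclideanSpace ℝ (Fin 3)
abbrev E2 := EuclideanSpace ℝ (Fin 2)

/-- The linear map `t ↦ t₀ v + t₁ w`. -/
noncomputable def lin (v w : E3) : E2 →ₗ[ℝ] E3 where
  toFun t := t 0 • v + t 1 • w
  map_add' := by
    intro s t
    simp only [PiLp.add_apply, add_smul]
    abel
  map_smul' := by
    intro c t
    simp only [PiLp.smul_apply, smul_eq_mul, mul_smul, smul_add, RingHom.id_apply]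

/-- The cross product. -/
noncomputable def cr (v w : E3) : E3 :=
  !₂[v 1 * w 2 - v 2 * w 1, v 2 * w 0 - v 0 * w 2, v 0 * w 1 - v 1 * w 0]

theorem normDet_lin (v w : E3) : (lin v w).normDet = ‖cr v w‖ := by
  have h1 : ((lin v w).normDet) ^ 2 = ‖cr v w‖ ^ 2 := by
    have h := (lin v w).normDet_sq_eq_det_gram (EuclideanSpace.basisFun (Fin 2) ℝ)
    have h' : ((lin v w).normDet) ^ 2 =
      (Matrix.gram ℝ (fun i => (lin v w) ((EuclideanSpace.basisFun (Fin 2) ℝ) i))).det := h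
    rw [h', Matrix.det_fin_two]
    simp only [Matrix.gram_apply, lin, LinearMap.coe_mk, AddHom.coe_mk,
      EuclideanSpace.basisFun_apply, PiLp.single_apply]
    simp [EuclideanSpace.norm_sq_eq, Fin.sum_univ_three, cr, PiLp.inner_apply]
    ring
  exact (sq_eq_sq₀ (LinearMap.normDet_nonneg _) (norm_nonneg _)).mp h1

theorem area_image (b v w : E3) (U : Set E2) :
    μHE[2] ((fun t : E2 => b + (t 0 • v + t 1 • w)) '' U) =
      ENNReal.ofReal ‖cr v w‖ * volume U := by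
  have h1 : (fun t : E2 => b + (t 0 • v + t 1 • w)) '' U =
      (IsometryEquiv.addLeft b) '' ((lin v w) '' U) := by
    rw [image_image]
    rfl
  rw [h1, (IsometryEquiv.addLeft b).isometry.euclideanHausdorffMeasure_image]
  have h := (lin v w).euclideanHausdorffMeasure_image_eq_normDet_mul_volume U
  rw [normDet_lin] at h
  have h2 : finrank ℝ E2 = 2 := by simp
  rw [h2] at h
  exact h

/-- **Hlawka's inequality.** -/
theorem hlawka (x y z : E3) :
    ‖x + y‖ + ‖y + z‖ + ‖z + x‖ ≤ ‖x‖ + ‖y‖ + ‖z‖ + ‖x + y + z‖ := by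
  have key : ‖x‖ ^ 2 + ‖y‖ ^ 2 + ‖z‖ ^ 2 + ‖x + y + z‖ ^ 2 =
      ‖x + y‖ ^ 2 + ‖y + z‖ ^ 2 + ‖z + x‖ ^ 2 := by
    simp only [@norm_add_sq_real, inner_add_left, real_inner_comm]
    ring
  have hx := norm_nonneg x
  have hy := norm_nonneg y
  have hz := norm_nonneg z
  have hs := norm_nonneg (x + y + z)
  have hxy := norm_nonneg (x + y)
  have hyz := norm_nonneg (y + z)
  have hzx := norm_nonneg (z + x)
  have t1 : ‖x + y‖ ≤ ‖x‖ + ‖y‖ := norm_add_le _ _
  have t2 : ‖y + z‖ ≤ ‖y‖ + ‖z‖ := norm_add_le _ _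
  have t3 : ‖z + x‖ ≤ ‖z‖ + ‖x‖ := norm_add_le _ _
  have u1 : ‖x + y‖ ≤ ‖z‖ + ‖x + y + z‖ := by
    have : x + y = (x + y + z) - z := by abel
    calc ‖x + y‖ = ‖(x + y + z) - z‖ := by rw [← this]
      _ ≤ ‖x + y + z‖ + ‖z‖ := norm_sub_le _ _
      _ = _ := by ring
  have u2 : ‖y + z‖ ≤ ‖x‖ + ‖x + y + z‖ := by
    have : y + z = (x + y + z) - x := by abel
    calc ‖y + z‖ = ‖(x + y + z) - x‖ := by rw [← this]
      _ ≤ ‖x + y + z‖ + ‖x‖ := norm_sub_le _ _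
      _ = _ := by ring
  have u3 : ‖z + x‖ ≤ ‖y‖ + ‖x + y + z‖ := by
    have : z + x = (x + y + z) - y := by abel
    calc ‖z + x‖ = ‖(x + y + z) - y‖ := by rw [← this]
      _ ≤ ‖x + y + z‖ + ‖y‖ := norm_sub_le _ _
      _ = _ := by ring
  by_contra hcon
  push Not at hcon
  have m1 := mul_nonneg (sub_nonneg.mpr t1) (sub_nonneg.mpr u1)
  have m2 := mul_nonneg (sub_nonneg.mpr t2) (sub_nonneg.mpr u2)
  have m3 := mul_nonneg (sub_nonneg.mpr t3) (sub_nonneg.mpr u3)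
  have hpos : 0 < ‖x‖ + ‖y‖ + ‖z‖ + ‖x + y + z‖ := by
    by_contra h0
    push Not at h0
    nlinarith
  nlinarith [mul_pos hpos (sub_pos.mpr hcon)]

end Pool.Agent.Y511.SurfDom
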