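import Pool.Agent.Y511.SurfDomA

open MeasureTheory Set Module
open scoped ENNReal Pointwise

namespace Pool.Agent.Y511.SurfDom

/-- The sign of a Boolean. -/
noncomputable def sg (b : Bool) : ℝ := if b then 1 else -1

theorem sg_true : sg true = 1 := by simp [sg]
theorem sg_false : sg false = -1 := by simp [sg]

theorem sg_sq (b : Bool) : sg b * sg b = 1 := by
  cases b <;> simp [sg]

theorem sg_mul_abs (x : ℝ) : ∃ b : Bool, sg b * |x| = x := by
  rcases le_total 0 x with h | h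
  · exact ⟨true, by rw [sg_true, abs_of_nonneg h, one_mul]⟩
  · exact ⟨false, by rw [sg_false, abs_of_nonpos h]; ring⟩

/-- The normal of a facet of the image of the octahedron. -/
noncomputable def Nn (a : Fin 3 → E3) (e : Bool × Bool × Bool) : ℝ :=
  ‖cr (sg e.2.1 • a 1 - sg e.1 • a 0) (sg e.2.2 • a 2 - sg e.1 • a 0)‖

theorem Nn_eq (a : Fin 3 → E3) (e : Bool × Bool × Bool) :
    Nn a e = ‖sg e.1 • cr (a 1) (a 2) + sg e.2.1 • cr (a 2) (a 0) + sg e.2.2 • cr (a 0) (a 1)‖ := by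
  obtain ⟨e0, e1, e2⟩ := e
  unfold Nn
  have h1 : cr (sg e1 • a 1 - sg e0 • a 0) (sg e2 • a 2 - sg e0 • a 0) =
      (sg e0 * sg e1 * sg e2) •
        (sg e0 • cr (a 1) (a 2) + sg e1 • cr (a 2) (a 0) + sg e2 • cr (a 0) (a 1)) := by
    have s0 := sg_sq e0
    have s1 := sg_sq e1
    have s2 := sg_sq e2
    ext i
    fin_cases i
    · simp [cr]
      linear_combination
        (-(sg e1 * sg e2 * (a 1 1 * a 2 2 - a 1 2 * a 2 1))) * s0
        - (sg e0 * sg e2 * (a 2 1 * a 0 2 - a 2 2 * a 0 1)) * s1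
        - (sg e0 * sg e1 * (a 0 1 * a 1 2 - a 0 2 * a 1 1)) * s2
    · simp [cr]
      linear_combination
        (-(sg e1 * sg e2 * (a 1 2 * a 2 0 - a 1 0 * a 2 2))) * s0
        - (sg e0 * sg e2 * (a 2 2 * a 0 0 - a 2 0 * a 0 2)) * s1
        - (sg e0 * sg e1 * (a 0 2 * a 1 0 - a 0 0 * a 1 2)) * s2
    · simp [cr]
      linear_combination
        (-(sg e1 * sg e2 * (a 1 0 * a 2 1 - a 1 1 * a 2 0))) * s0
        - (sg e0 * sg e2 * (a 2 0 * a 0 1 - a 2 1 * a 0 0)) * s1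
        - (sg e0 * sg e1 * (a 0 0 * a 1 1 - a 0 1 * a 1 0)) * s2
  have h2 : ‖sg e0 * sg e1 * sg e2‖ = 1 := by
    cases e0 <;> cases e1 <;> cases e2 <;> simp [sg]
  rw [h1, norm_smul, h2, one_mul]

theorem sum_Nn (a : Fin 3 → E3) :
    4 * (‖cr (a 1) (a 2)‖ + ‖cr (a 2) (a 0)‖ + ‖cr (a 0) (a 1)‖) ≤
      ∑ e : Bool × Bool × Bool, Nn a e := by
  simp only [Nn_eq]
  set p := cr (a 1) (a 2)
  set q := cr (a 2) (a 0)
  set r := cr (a 0) (a 1)
  simp only [Fintype.sum_prod_type, Fintype.sum_bool, sg_true, sg_false, one_smul]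
  have h := hlawka (-p + q + r) (p - q + r) (p + q - r)
  have h1 : (-p + q + r) + (p - q + r) = (2 : ℝ) • r := by rw [two_smul]; abel
  have h2 : (p - q + r) + (p + q - r) = (2 : ℝ) • p := by rw [two_smul]; abel
  have h3 : (p + q - r) + (-p + q + r) = (2 : ℝ) • q := by rw [two_smul]; abel
  have h4 : (-p + q + r) + (p - q + r) + (p + q - r) = p + q + r := by abel
  rw [h4, h1, h2, h3, norm_smul, norm_smul, norm_smul] at h
  have e2 : ‖(2 : ℝ)‖ = 2 := by norm_num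
  rw [e2] at h
  have g1 : ‖p + q + (-1 : ℝ) • r‖ = ‖p + q - r‖ := by congr 1; rw [neg_one_smul]; abel
  have g2 : ‖p + (-1 : ℝ) • q + r‖ = ‖p - q + r‖ := by congr 1; rw [neg_one_smul]; abel
  have g3 : ‖p + (-1 : ℝ) • q + (-1 : ℝ) • r‖ = ‖-p + q + r‖ := by
    rw [← norm_neg]; congr 1; rw [neg_one_smul, neg_one_smul]; abel
  have g4 : ‖(-1 : ℝ) • p + q + r‖ = ‖-p + q + r‖ := by congr 1; rw [neg_one_smul]
  have g5 : ‖(-1 : ℝ) • p + q + (-1 : ℝ) • r‖ = ‖p - q + r‖ := by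
    rw [← norm_neg]; congr 1; rw [neg_one_smul, neg_one_smul]; abel
  have g6 : ‖(-1 : ℝ) • p + (-1 : ℝ) • q + r‖ = ‖p + q - r‖ := by
    rw [← norm_neg]; congr 1; rw [neg_one_smul, neg_one_smul]; abel
  have g7 : ‖(-1 : ℝ) • p + (-1 : ℝ) • q + (-1 : ℝ) • r‖ = ‖p + q + r‖ := by
    rw [← norm_neg]; congr 1; rw [neg_one_smul, neg_one_smul, neg_one_smul]; abel
  rw [g1, g2, g3, g4, g5, g6, g7]
  linarith

/-- The open parameter triangle. -/
def T (c : ℝ) : Set E2 := {t | 0 < t 0 ∧ 0 < t 1 ∧ t 0 + t 1 < c}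

/-- The parameter hexagon. -/
def Hx : Set E2 := {t | 0 ≤ t 0 ∧ 0 ≤ t 1 ∧ t 0 ≤ 5 / 6 ∧ t 1 ≤ 5 / 6 ∧ 1 / 6 ≤ t 0 + t 1 ∧
  t 0 + t 1 ≤ 1}

theorem isOpen_T (c : ℝ) : IsOpen (T c) := by
  have h1 : IsOpen {t : E2 | 0 < t 0} := isOpen_lt continuous_const (by fun_prop)
  have h2 : IsOpen {t : E2 | 0 < t 1} := isOpen_lt continuous_const (by fun_prop)
  have h3 : IsOpen {t : E2 | t 0 + t 1 < c} := isOpen_lt (by fun_prop) continuous_const
  exact h1.inter (h2.inter h3)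

theorem T_smul {c : ℝ} (hc : 0 < c) : T c = c • T 1 := by
  ext t
  rw [mem_smul_set_iff_inv_smul_mem₀ hc.ne']
  have hci : 0 < c⁻¹ := inv_pos.mpr hc
  simp only [T, mem_ofPred_eq, PiLp.smul_apply, smul_eq_mul]
  constructor
  · rintro ⟨h1, h2, h3⟩
    refine ⟨by positivity, by positivity, ?_⟩
    rw [← mul_add, inv_mul_lt_iff₀ hc]
    simpa using h3
  · rintro ⟨h1, h2, h3⟩
    rw [← mul_add, inv_mul_lt_iff₀ hc] at h3
    exact ⟨(mul_pos_iff_of_pos_left hci).mp h1, (mul_pos_iff_of_pos_left hci).mp h2, by simpa using h3⟩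

/-- The area of the unit triangle. -/
noncomputable def τ : ℝ≥0∞ := volume (T 1)

theorem vol_T {c : ℝ} (hc : 0 < c) : volume (T c) = ENNReal.ofReal (c ^ 2) * τ := by
  rw [T_smul hc, Measure.addHaar_smul]
  simp [τ]

theorem τ_ne_top : τ ≠ ∞ := by
  have hb : Bornology.IsBounded (T 1) := by
    refine (Metric.isBounded_closedBall (x := (0 : E2)) (r := 2)).subset ?_
    intro t ht
    obtain ⟨h1, h2, h3⟩ := ht
    rw [mem_closedBall_zero_iff, EuclideanSpace.norm_eq, Fin.sum_univ_two]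
    rw [Real.sqrt_le_left (by norm_num)]
    rw [Real.norm_eq_abs, Real.norm_eq_abs, sq_abs, sq_abs]
    nlinarith
  exact hb.measure_lt_top.ne

/-- The closed parameter triangle. -/
def Tc (c : ℝ) : Set E2 := {t | 0 ≤ t 0 ∧ 0 ≤ t 1 ∧ t 0 + t 1 ≤ c}

theorem vol_Tc {c : ℝ} (hc : 0 < c) :
    volume (Tc c) ≤ ENNReal.ofReal ((c + c / 1000) ^ 2) * τ := by
  have hsub : Tc c ⊆ (fun t : E2 => !₂[c / 4000, c / 4000] + t) ⁻¹' (T (c + c / 1000)) := by
    rintro t ⟨h1, h2, h3⟩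
    have : 0 < c / 4000 := by positivity
    simp only [T, mem_preimage, mem_ofPred_eq, PiLp.add_apply]
    refine ⟨?_, ?_, ?_⟩
    · show 0 < c / 4000 + t 0
      linarith
    · show 0 < c / 4000 + t 1
      linarith
    · show (c / 4000 + t 0) + (c / 4000 + t 1) < c + c / 1000
      linarith
  refine (measure_mono hsub).trans ?_
  rw [measure_preimage_add, vol_T (by positivity)]

theorem vol_Hx : volume Hx ≤ ENNReal.ofReal (92268 / 100000) * τ := by
  have hτ := τ_ne_top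
  -- corners
  let K1 : Set E2 := T (1 / 6)
  let K2 : Set E2 := (fun t : E2 => !₂[-(5 / 6 : ℝ), 0] + t) ⁻¹' (T (1 / 6))
  let K3 : Set E2 := (fun t : E2 => !₂[0, -(5 / 6 : ℝ)] + t) ⁻¹' (T (1 / 6))
  have mem2 : ∀ t : E2, t ∈ K2 ↔ 0 < -(5 / 6) + t 0 ∧ 0 < 0 + t 1 ∧
      (-(5 / 6) + t 0) + (0 + t 1) < 1 / 6 := fun t => Iff.rfl
  have mem3 : ∀ t : E2, t ∈ K3 ↔ 0 < 0 + t 0 ∧ 0 < -(5 / 6) + t 1 ∧
      (0 + t 0) + (-(5 / 6) + t 1) < 1 / 6 := fun t => Iff.rfl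
  have mem1 : ∀ t : E2, t ∈ K1 ↔ 0 < t 0 ∧ 0 < t 1 ∧ t 0 + t 1 < 1 / 6 := fun t => Iff.rfl
  have o1 : IsOpen K1 := isOpen_T _
  have o2 : IsOpen K2 := (isOpen_T _).preimage (by fun_prop)
  have o3 : IsOpen K3 := (isOpen_T _).preimage (by fun_prop)
  have v1 : volume K1 = ENNReal.ofReal ((1 / 6) ^ 2) * τ := vol_T (by norm_num)
  have v2 : volume K2 = ENNReal.ofReal ((1 / 6) ^ 2) * τ := by
    show volume ((fun t : E2 => !₂[-(5 / 6 : ℝ), 0] + t) ⁻¹' (T (1 / 6))) = _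
    rw [measure_preimage_add]
    exact vol_T (by norm_num)
  have v3 : volume K3 = ENNReal.ofReal ((1 / 6) ^ 2) * τ := by
    show volume ((fun t : E2 => !₂[0, -(5 / 6 : ℝ)] + t) ⁻¹' (T (1 / 6))) = _
    rw [measure_preimage_add]
    exact vol_T (by norm_num)
  have hsub : Hx ∪ (K1 ∪ (K2 ∪ K3)) ⊆ Tc 1 := by
    rintro t (h | h | h | h)
    · obtain ⟨h1, h2, -, -, -, h3⟩ := h
      exact ⟨h1, h2, h3⟩
    · rw [mem1] at h
      exact ⟨by linarith [h.1], by linarith [h.2.1], by linarith [h.2.2]⟩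
    · rw [mem2] at h
      exact ⟨by linarith [h.1], by linarith [h.2.1], by linarith [h.2.2]⟩
    · rw [mem3] at h
      exact ⟨by linarith [h.1], by linarith [h.2.1], by linarith [h.2.2]⟩
  have d1 : Disjoint Hx (K1 ∪ (K2 ∪ K3)) := by
    rw [Set.disjoint_left]
    rintro t ⟨h1, h2, h3, h4, h5, h6⟩ (h | h | h)
    · rw [mem1] at h
      linarith [h.1, h.2.1, h.2.2]
    · rw [mem2] at h
      linarith [h.1, h.2.1, h.2.2]
    · rw [mem3] at h
      linarith [h.1, h.2.1, h.2.2]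
  have d2 : Disjoint K1 (K2 ∪ K3) := by
    rw [Set.disjoint_left]
    rintro t h (h' | h')
    · rw [mem1] at h
      rw [mem2] at h'
      linarith [h.1, h.2.1, h.2.2, h'.1, h'.2.1, h'.2.2]
    · rw [mem1] at h
      rw [mem3] at h'
      linarith [h.1, h.2.1, h.2.2, h'.1, h'.2.1, h'.2.2]
  have d3 : Disjoint K2 K3 := by
    rw [Set.disjoint_left]
    rintro t h h'
    rw [mem2] at h
    rw [mem3] at h'
    linarith [h.1, h.2.1, h.2.2, h'.1, h'.2.1, h'.2.2]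
  have hm := measure_mono (μ := volume) hsub
  rw [measure_union d1 (o1.measurableSet.union (o2.measurableSet.union o3.measurableSet)),
    measure_union d2 (o2.measurableSet.union o3.measurableSet),
    measure_union d3 o3.measurableSet, v1, v2, v3] at hm
  have hm2 := hm.trans (vol_Tc one_pos)
  have hfin : volume Hx ≠ ∞ := by
    refine ne_top_of_le_ne_top ?_ (le_self_add.trans hm2)
    exact ENNReal.mul_ne_top ENNReal.ofReal_ne_top hτ
  lift volume Hx to NNReal using hfin with x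
  lift τ to NNReal using hτ with y
  have e1 : ENNReal.ofReal ((1 / 6) ^ 2) = ((Real.toNNReal ((1 / 6) ^ 2) : NNReal) : ℝ≥0∞) := rfl
  have e2 : ENNReal.ofReal ((1 + 1 / 1000) ^ 2) =
    ((Real.toNNReal ((1 + 1 / 1000) ^ 2) : NNReal) : ℝ≥0∞) := rfl
  have e3 : ENNReal.ofReal (92268 / 100000) =
    ((Real.toNNReal (92268 / 100000) : NNReal) : ℝ≥0∞) := rfl
  rw [e1, e2] at hm2
  rw [e3]
  norm_cast at hm2 ⊢
  have hm3 : (x : ℝ) + (((1 / 6) ^ 2) * y + ((((1 / 6) ^ 2) * y) + (((1 / 6) ^ 2) * y))) ≤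
      ((1 + 1 / 1000) ^ 2) * y := by
    have := NNReal.coe_le_coe.mpr hm2
    push_cast at this
    rw [Real.coe_toNNReal _ (by norm_num), Real.coe_toNNReal _ (by norm_num)] at this
    exact this
  rw [← NNReal.coe_le_coe]
  push_cast
  rw [Real.coe_toNNReal _ (by norm_num)]
  have hy : (0 : ℝ) ≤ y := y.2
  nlinarith

end Pool.Agent.Y511.SurfDom
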