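import Pool.Agent.Y511.SurfDomB

open MeasureTheory Set Module
open scoped ENNReal Pointwise

namespace Pool.Agent.Y511.SurfDom

/-- The octahedron of radius `c`. -/
def Oct (c : ℝ) : Set E3 := {x | |x 0| + |x 1| + |x 2| ≤ c}

/-- The truncated octahedron. -/
def Tr : Set E3 := {x | |x 0| + |x 1| + |x 2| ≤ 1 ∧ |x 0| ≤ 5 / 6 ∧ |x 1| ≤ 5 / 6 ∧ |x 2| ≤ 5 / 6}

/-- The images of the basis vectors. -/
noncomputable def col (A : E3 ≃ᵃ[ℝ] E3) (i : Fin 3) : E3 :=
  A.linear (EuclideanSpace.single i (1 : ℝ))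

theorem A_apply (A : E3 ≃ᵃ[ℝ] E3) (x : E3) :
    A x = A 0 + (x 0 • col A 0 + x 1 • col A 1 + x 2 • col A 2) := by
  have h1 : A x = A.linear x + A 0 := by
    have := A.map_vadd (0 : E3) x
    simpa using this
  have h2 : x = x 0 • EuclideanSpace.single (0 : Fin 3) (1 : ℝ) +
      x 1 • EuclideanSpace.single (1 : Fin 3) (1 : ℝ) +
      x 2 • EuclideanSpace.single (2 : Fin 3) (1 : ℝ) := by
    ext i
    fin_cases i <;> simp
  rw [h1]
  conv_lhs => rw [h2]
  rw [map_add, map_add, map_smul, map_smul, map_smul]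
  unfold col
  abel

/-- The parametrisation of a big facet. -/
noncomputable def big (A : E3 ≃ᵃ[ℝ] E3) (c : ℝ) (e : Bool × Bool × Bool) (t : E2) : E3 :=
  (A 0 + (c * sg e.1) • col A 0) + (t 0 • (sg e.2.1 • col A 1 - sg e.1 • col A 0) +
    t 1 • (sg e.2.2 • col A 2 - sg e.1 • col A 0))

theorem area_big (A : E3 ≃ᵃ[ℝ] E3) (c : ℝ) (e : Bool × Bool × Bool) (U : Set E2) :
    μHE[2] (big A c e '' U) = ENNReal.ofReal (Nn (col A) e) * volume U :=
  area_image _ _ _ _

theorem big_eq (A : E3 ≃ᵃ[ℝ] E3) (c : ℝ) (e : Bool × Bool × Bool) (t : E2) :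
    big A c e t = A !₂[sg e.1 * (c - t 0 - t 1), sg e.2.1 * t 0, sg e.2.2 * t 1] := by
  rw [A_apply]
  simp only [big]
  simp only [PiLp.toLp_apply, Matrix.cons_val_zero, Matrix.cons_val_one, Matrix.cons_val]
  module

theorem isClosed_Oct (c : ℝ) : IsClosed (Oct c) :=
  isClosed_le (by fun_prop) continuous_const

theorem isClosed_Tr : IsClosed Tr := by
  have h1 : IsClosed {x : E3 | |x 0| + |x 1| + |x 2| ≤ 1} := isClosed_le (by fun_prop) continuous_const
  have h2 : IsClosed {x : E3 | |x 0| ≤ 5 / 6} := isClosed_le (by fun_prop) continuous_const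
  have h3 : IsClosed {x : E3 | |x 1| ≤ 5 / 6} := isClosed_le (by fun_prop) continuous_const
  have h4 : IsClosed {x : E3 | |x 2| ≤ 5 / 6} := isClosed_le (by fun_prop) continuous_const
  exact h1.inter (h2.inter (h3.inter h4))

/-- The frontier of the truncated octahedron lies in the union of its facets. -/
theorem frontier_Tr (x : E3) (hx : x ∈ frontier Tr) :
    (|x 0| + |x 1| + |x 2| = 1 ∧ |x 0| ≤ 5 / 6 ∧ |x 1| ≤ 5 / 6 ∧ |x 2| ≤ 5 / 6) ∨
    (|x 0| = 5 / 6 ∧ |x 1| + |x 2| ≤ 1 / 6) ∨ (|x 1| = 5 / 6 ∧ |x 2| + |x 0| ≤ 1 / 6) ∨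
    (|x 2| = 5 / 6 ∧ |x 0| + |x 1| ≤ 1 / 6) := by
  have hmem : x ∈ Tr := isClosed_Tr.frontier_subset hx
  have hni : x ∉ interior Tr := fun h => hx.2 h
  obtain ⟨h0, h1, h2, h3⟩ := hmem
  by_contra hcon
  push Not at hcon
  obtain ⟨c0, c1, c2, c3⟩ := hcon
  apply hni
  have l0 : |x 0| < 5 / 6 := lt_of_le_of_ne h1 (fun h => by linarith [c1 h])
  have l1 : |x 1| < 5 / 6 := lt_of_le_of_ne h2 (fun h => by linarith [c2 h])
  have l2 : |x 2| < 5 / 6 := lt_of_le_of_ne h3 (fun h => by linarith [c3 h])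
  have ls : |x 0| + |x 1| + |x 2| < 1 := by
    refine lt_of_le_of_ne h0 (fun h => ?_)
    linarith [c0 h h1 h2]
  rw [mem_interior]
  refine ⟨{x : E3 | |x 0| + |x 1| + |x 2| < 1} ∩ ({x : E3 | |x 0| < 5 / 6} ∩
    ({x : E3 | |x 1| < 5 / 6} ∩ {x : E3 | |x 2| < 5 / 6})), ?_, ?_, ?_⟩
  · rintro y ⟨y0, y1, y2, y3⟩
    exact ⟨le_of_lt y0, le_of_lt y1, le_of_lt y2, le_of_lt y3⟩
  · exact (isOpen_lt (by fun_prop) continuous_const).inter
      ((isOpen_lt (by fun_prop) continuous_const).inter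
      ((isOpen_lt (by fun_prop) continuous_const).inter
      (isOpen_lt (by fun_prop) continuous_const)))
  · exact ⟨ls, l0, l1, l2⟩

/-- The open facets of the octahedron lie in its frontier. -/
theorem frontier_Oct {c : ℝ} (hc : 0 < c) (x : E3) (hx : |x 0| + |x 1| + |x 2| = c) :
    x ∈ frontier (Oct c) := by
  rw [(isClosed_Oct c).frontier_eq]
  refine ⟨hx.le, fun hi => ?_⟩
  have hcont : Filter.Tendsto (fun s : ℝ => s • x) (nhds 1) (nhds ((1 : ℝ) • x)) :=
    (continuous_id.smul continuous_const).tendsto 1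
  rw [one_smul] at hcont
  have h1 := hcont (isOpen_interior.mem_nhds hi)
  have h2 : ∀ᶠ s in nhdsWithin (1 : ℝ) (Ioi 1), s • x ∈ interior (Oct c) :=
    nhdsWithin_le_nhds h1
  have h3 : ∀ᶠ s in nhdsWithin (1 : ℝ) (Ioi 1), s ∈ Ioi (1 : ℝ) := self_mem_nhdsWithin
  obtain ⟨s, hs, hs1⟩ := (h2.and h3).exists
  have h4 : s • x ∈ Oct c := interior_subset hs
  have hs1' : 1 < s := hs1
  have h5 : |s * x 0| + |s * x 1| + |s * x 2| ≤ c := h4
  rw [abs_mul, abs_mul, abs_mul, abs_of_pos (by linarith : (0 : ℝ) < s)] at h5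
  nlinarith

theorem frontier_image (A : E3 ≃ᵃ[ℝ] E3) (K : Set E3) :
    frontier (A '' K) = A '' frontier K := by
  have h := (A.toHomeomorphOfFiniteDimensional).image_frontier K
  simpa using h.symm

/-- Upper bound for the surface area of the image of the truncated octahedron. -/
theorem upper (A : E3 ≃ᵃ[ℝ] E3) :
    μHE[2] (frontier (A '' Tr)) ≤
      ∑ e : Bool × Bool × Bool, ENNReal.ofReal (Nn (col A) e) * volume Hx +
      8 * ((ENNReal.ofReal ‖cr (col A 1) (col A 2)‖ + ENNReal.ofReal ‖cr (col A 2) (col A 0)‖ +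
        ENNReal.ofReal ‖cr (col A 0) (col A 1)‖) * volume (Tc (1 / 6))) := by
  -- small facets
  let sm : (i j k : Fin 3) → (Bool × Bool × Bool) → E2 → E3 := fun i j k e t =>
    (A 0 + (5 / 6 * sg e.1) • col A i) + (t 0 • (sg e.2.1 • col A j) + t 1 • (sg e.2.2 • col A k))
  have hsm : ∀ i j k e (U : Set E2), μHE[2] (sm i j k e '' U) =
      ENNReal.ofReal ‖cr (col A j) (col A k)‖ * volume U := by
    intro i j k e U
    rw [show sm i j k e '' U = (fun t : E2 => (A 0 + (5 / 6 * sg e.1) • col A i) +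
      (t 0 • (sg e.2.1 • col A j) + t 1 • (sg e.2.2 • col A k))) '' U from rfl, area_image]
    congr 2
    have : cr (sg e.2.1 • col A j) (sg e.2.2 • col A k) =
        (sg e.2.1 * sg e.2.2) • cr (col A j) (col A k) := by
      ext l
      fin_cases l <;> simp [cr] <;> ring
    rw [this, norm_smul]
    have h2 : ‖sg e.2.1 * sg e.2.2‖ = 1 := by
      rcases e with ⟨e0, e1, e2⟩
      cases e1 <;> cases e2 <;> simp [sg]
    rw [h2, one_mul]
  have hcov : frontier (A '' Tr) ⊆ (⋃ e : Bool × Bool × Bool, big A 1 e '' Hx) ∪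
      ((⋃ e : Bool × Bool × Bool, sm 0 1 2 e '' Tc (1 / 6)) ∪
      ((⋃ e : Bool × Bool × Bool, sm 1 2 0 e '' Tc (1 / 6)) ∪
      (⋃ e : Bool × Bool × Bool, sm 2 0 1 e '' Tc (1 / 6)))) := by
    rw [frontier_image]
    rintro _ ⟨x, hx, rfl⟩
    obtain ⟨s0, hs0⟩ := sg_mul_abs (x 0)
    obtain ⟨s1, hs1⟩ := sg_mul_abs (x 1)
    obtain ⟨s2, hs2⟩ := sg_mul_abs (x 2)
    rcases frontier_Tr x hx with ⟨h0, h1, h2, h3⟩ | ⟨h0, h1⟩ | ⟨h0, h1⟩ | ⟨h0, h1⟩
    · left
      rw [mem_iUnion]
      refine ⟨(s0, s1, s2), !₂[|x 1|, |x 2|], ⟨abs_nonneg _, abs_nonneg _, h2, h3, ?_, ?_⟩, ?_⟩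
      · show 1 / 6 ≤ |x 1| + |x 2|
        linarith
      · show |x 1| + |x 2| ≤ 1
        linarith [abs_nonneg (x 0)]
      · rw [big_eq]
        congr 1
        ext i
        fin_cases i
        · show sg s0 * (1 - |x 1| - |x 2|) = x 0
          rw [show (1 - |x 1| - |x 2|) = |x 0| by linarith, hs0]
        · exact hs1
        · exact hs2
    · right; left
      rw [mem_iUnion]
      refine ⟨(s0, s1, s2), !₂[|x 1|, |x 2|], ⟨abs_nonneg _, abs_nonneg _, h1⟩, ?_⟩
      show (A 0 + (5 / 6 * sg s0) • col A 0) +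
        (|x 1| • (sg s1 • col A 1) + |x 2| • (sg s2 • col A 2)) = A x
      rw [A_apply A x, ← h0]
      conv_rhs => rw [← hs0, ← hs1, ← hs2]
      module
    · right; right; left
      rw [mem_iUnion]
      refine ⟨(s1, s2, s0), !₂[|x 2|, |x 0|], ⟨abs_nonneg _, abs_nonneg _, h1⟩, ?_⟩
      show (A 0 + (5 / 6 * sg s1) • col A 1) +
        (|x 2| • (sg s2 • col A 2) + |x 0| • (sg s0 • col A 0)) = A x
      rw [A_apply A x, ← h0]
      conv_rhs => rw [← hs0, ← hs1, ← hs2]
      module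
    · right; right; right
      rw [mem_iUnion]
      refine ⟨(s2, s0, s1), !₂[|x 0|, |x 1|], ⟨abs_nonneg _, abs_nonneg _, h1⟩, ?_⟩
      show (A 0 + (5 / 6 * sg s2) • col A 2) +
        (|x 0| • (sg s0 • col A 0) + |x 1| • (sg s1 • col A 1)) = A x
      rw [A_apply A x, ← h0]
      conv_rhs => rw [← hs0, ← hs1, ← hs2]
      module
  have hU : ∀ (f : Bool × Bool × Bool → Set E3), μHE[2] (⋃ e, f e) ≤ ∑ e, μHE[2] (f e) := by
    intro f
    exact measure_iUnion_fintype_le _ _
  refine (measure_mono hcov).trans ?_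
  refine (measure_union_le _ _).trans ?_
  refine add_le_add ?_ ?_
  · refine (hU _).trans ?_
    simp only [area_big]
    exact le_rfl
  · refine (measure_union_le _ _).trans ?_
    refine (add_le_add le_rfl (measure_union_le _ _)).trans ?_
    refine (add_le_add (hU _) (add_le_add (hU _) (hU _))).trans ?_
    simp only [hsm, Finset.sum_const, Finset.card_univ, Fintype.card_prod, Fintype.card_bool,
      nsmul_eq_mul]
    apply le_of_eq
    push_cast
    ring

/-- Lower bound for the surface area of the image of the octahedron. -/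
theorem lower (A : E3 ≃ᵃ[ℝ] E3) {c : ℝ} (hc : 0 < c) :
    ∑ e : Bool × Bool × Bool, ENNReal.ofReal (Nn (col A) e) * volume (T c) ≤
    μHE[2] (frontier (A '' Oct c)) := by
  let P : Bool × Bool × Bool → Set E3 := fun e =>
    {x : E3 | |x 0| + |x 1| + |x 2| = c ∧ 0 < sg e.1 * x 0 ∧ 0 < sg e.2.1 * x 1 ∧
      0 < sg e.2.2 * x 2}
  have hP : ∀ e, big A c e '' T c = A '' P e := by
    rintro ⟨e0, e1, e2⟩
    apply subset_antisymm
    · rintro _ ⟨t, ⟨h1, h2, h3⟩, rfl⟩
      rw [big_eq]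
      refine ⟨_, ?_, rfl⟩
      have hs : ∀ b : Bool, |sg b| = 1 := by intro b; cases b <;> simp [sg]
      refine ⟨?_, ?_, ?_, ?_⟩
      · show |sg e0 * (c - t 0 - t 1)| + |sg e1 * t 0| + |sg e2 * t 1| = c
        rw [abs_mul, abs_mul, abs_mul, hs, hs, hs, abs_of_pos h1, abs_of_pos h2,
          abs_of_pos (by linarith)]
        ring
      · show 0 < sg e0 * (sg e0 * (c - t 0 - t 1))
        rw [← mul_assoc, sg_sq, one_mul]
        linarith
      · show 0 < sg e1 * (sg e1 * t 0)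
        rw [← mul_assoc, sg_sq, one_mul]
        exact h1
      · show 0 < sg e2 * (sg e2 * t 1)
        rw [← mul_assoc, sg_sq, one_mul]
        exact h2
    · rintro _ ⟨x, ⟨h0, h1, h2, h3⟩, rfl⟩
      have habs : ∀ (b : Bool) (y : ℝ), 0 < sg b * y → |y| = sg b * y := by
        intro b y hy
        cases b
        · rw [sg_false] at hy ⊢
          rw [abs_of_neg (by linarith)]; ring
        · rw [sg_true] at hy ⊢
          rw [abs_of_pos (by linarith)]; ring
      simp only at h1 h2 h3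
      rw [habs e0 _ h1, habs e1 _ h2, habs e2 _ h3] at h0
      refine ⟨!₂[sg e1 * x 1, sg e2 * x 2], ⟨h2, h3, ?_⟩, ?_⟩
      · show sg e1 * x 1 + sg e2 * x 2 < c
        linarith
      · rw [big_eq]
        congr 1
        ext i
        fin_cases i
        · show sg e0 * (c - sg e1 * x 1 - sg e2 * x 2) = x 0
          rw [show c - sg e1 * x 1 - sg e2 * x 2 = sg e0 * x 0 by linarith, ← mul_assoc, sg_sq,
            one_mul]
        · show sg e1 * (sg e1 * x 1) = x 1
          rw [← mul_assoc, sg_sq, one_mul]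
        · show sg e2 * (sg e2 * x 2) = x 2
          rw [← mul_assoc, sg_sq, one_mul]
  have hmeas : ∀ e, MeasurableSet (A '' P e) := by
    intro e
    have h1 : MeasurableSet (P e) := by
      have m1 : MeasurableSet {x : E3 | |x 0| + |x 1| + |x 2| = c} :=
        (isClosed_eq (by fun_prop) continuous_const).measurableSet
      have m2 : MeasurableSet {x : E3 | 0 < sg e.1 * x 0} :=
        (isOpen_lt continuous_const (by fun_prop)).measurableSet
      have m3 : MeasurableSet {x : E3 | 0 < sg e.2.1 * x 1} :=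
        (isOpen_lt continuous_const (by fun_prop)).measurableSet
      have m4 : MeasurableSet {x : E3 | 0 < sg e.2.2 * x 2} :=
        (isOpen_lt continuous_const (by fun_prop)).measurableSet
      exact m1.inter (m2.inter (m3.inter m4))
    have h2 := (A.toHomeomorphOfFiniteDimensional).measurableEmbedding.measurableSet_image' h1
    simpa using h2
  have hdisj : Pairwise (Function.onFun Disjoint (fun e => A '' P e)) := by
    intro e e' hne
    show Disjoint (A '' P e) (A '' P e')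
    rw [Set.disjoint_image_iff A.injective, Set.disjoint_left]
    rintro x ⟨-, h1, h2, h3⟩ ⟨-, g1, g2, g3⟩
    apply hne
    have hb : ∀ (b b' : Bool) (y : ℝ), 0 < sg b * y → 0 < sg b' * y → b = b' := by
      intro b b' y h h'
      cases b <;> cases b' <;> simp [sg] at h h' ⊢ <;> linarith
    obtain ⟨e0, e1, e2⟩ := e
    obtain ⟨f0, f1, f2⟩ := e'
    simp only [Prod.mk.injEq]
    exact ⟨hb _ _ _ h1 g1, hb _ _ _ h2 g2, hb _ _ _ h3 g3⟩
  have hsub : (⋃ e, A '' P e) ⊆ frontier (A '' Oct c) := by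
    rw [frontier_image]
    refine iUnion_subset fun e => image_mono ?_
    rintro x ⟨h, -⟩
    exact frontier_Oct hc x h
  calc ∑ e : Bool × Bool × Bool, ENNReal.ofReal (Nn (col A) e) * volume (T c)
      = ∑ e : Bool × Bool × Bool, μHE[2] (A '' P e) := by
        refine Finset.sum_congr rfl fun e _ => ?_
        rw [← hP, area_big]
    _ = μHE[2] (⋃ e, A '' P e) := by
        rw [measure_iUnion hdisj hmeas, tsum_fintype]
    _ ≤ _ := measure_mono hsub

end Pool.Agent.Y511.SurfDom
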