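import Pool.Agent.Y511.SurfDomC

open MeasureTheory Set Module
open scoped ENNReal Pointwise

namespace Pool.Agent.Y511.SurfDom

theorem arith (S m : ℝ) (hS : 0 ≤ S) (hm : 0 ≤ m) (h : 4 * m ≤ S) :
    ENNReal.ofReal S * volume Hx + 8 * (ENNReal.ofReal m * volume (Tc (1 / 6))) ≤
      ENNReal.ofReal S * (ENNReal.ofReal ((99 / 100) ^ 2) * τ) := by
  have n1 : (0 : ℝ) ≤ 92268 / 100000 := by norm_num
  have n2 : (0 : ℝ) ≤ (1 / 6 + 1 / 6 / 1000) ^ 2 := by norm_num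
  have n3 : (0 : ℝ) ≤ 8 := by norm_num
  have n4 : 0 ≤ S * (92268 / 100000) := mul_nonneg hS n1
  have n5 : 0 ≤ m * (1 / 6 + 1 / 6 / 1000) ^ 2 := mul_nonneg hm n2
  have n6 : 0 ≤ 8 * (m * (1 / 6 + 1 / 6 / 1000) ^ 2) := mul_nonneg n3 n5
  have h8 : ENNReal.ofReal (8 : ℝ) = 8 := by rw [ENNReal.ofReal_ofNat]
  have a1 : ENNReal.ofReal (S * (92268 / 100000) + 8 * (m * (1 / 6 + 1 / 6 / 1000) ^ 2)) =
      ENNReal.ofReal S * ENNReal.ofReal (92268 / 100000) +
      8 * (ENNReal.ofReal m * ENNReal.ofReal ((1 / 6 + 1 / 6 / 1000) ^ 2)) := by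
    rw [ENNReal.ofReal_add n4 n6, ENNReal.ofReal_mul hS, ENNReal.ofReal_mul n3,
      ENNReal.ofReal_mul hm, h8]
  calc ENNReal.ofReal S * volume Hx + 8 * (ENNReal.ofReal m * volume (Tc (1 / 6)))
      ≤ ENNReal.ofReal S * (ENNReal.ofReal (92268 / 100000) * τ) +
        8 * (ENNReal.ofReal m * (ENNReal.ofReal ((1 / 6 + 1 / 6 / 1000) ^ 2) * τ)) :=
        add_le_add (mul_le_mul' le_rfl vol_Hx)
          (mul_le_mul' le_rfl (mul_le_mul' le_rfl (vol_Tc (by norm_num))))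
    _ = ENNReal.ofReal (S * (92268 / 100000) + 8 * (m * (1 / 6 + 1 / 6 / 1000) ^ 2)) * τ := by
        rw [a1]
        ring
    _ ≤ ENNReal.ofReal (S * (99 / 100) ^ 2) * τ := by
        refine mul_le_mul' (ENNReal.ofReal_le_ofReal ?_) le_rfl
        nlinarith
    _ = ENNReal.ofReal S * (ENNReal.ofReal ((99 / 100) ^ 2) * τ) := by
        rw [ENNReal.ofReal_mul hS, mul_assoc]

/-- Affine surface area domination. -/
theorem domination (A : E3 ≃ᵃ[ℝ] E3) :
    μHE[2] (frontier (A '' Tr)) ≤ μHE[2] (frontier (A '' Oct (99 / 100))) := by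
  refine (upper A).trans (le_trans ?_ (lower A (by norm_num)))
  have hN : ∀ e, 0 ≤ Nn (col A) e := fun e => norm_nonneg _
  have hp0 : 0 ≤ ‖cr (col A 1) (col A 2)‖ := norm_nonneg _
  have hq0 : 0 ≤ ‖cr (col A 2) (col A 0)‖ := norm_nonneg _
  have hr0 : 0 ≤ ‖cr (col A 0) (col A 1)‖ := norm_nonneg _
  have hsum := sum_Nn (col A)
  have hS0 : 0 ≤ ∑ e : Bool × Bool × Bool, Nn (col A) e := Finset.sum_nonneg fun e _ => hN e
  have e1 : ∀ v : ℝ≥0∞, ∑ e : Bool × Bool × Bool, ENNReal.ofReal (Nn (col A) e) * v =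
      ENNReal.ofReal (∑ e : Bool × Bool × Bool, Nn (col A) e) * v := by
    intro v
    rw [← Finset.sum_mul, ENNReal.ofReal_sum_of_nonneg (fun e _ => hN e)]
  rw [e1, e1, vol_T (by norm_num), ← ENNReal.ofReal_add hp0 hq0,
    ← ENNReal.ofReal_add (add_nonneg hp0 hq0) hr0]
  exact arith _ _ hS0 (add_nonneg (add_nonneg hp0 hq0) hr0) hsum

theorem Oct_smul {c : ℝ} (hc : 0 < c) : Oct c = c • Oct 1 := by
  ext x
  rw [mem_smul_set_iff_inv_smul_mem₀ hc.ne']
  have hci : 0 < c⁻¹ := inv_pos.mpr hc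
  simp only [Oct, mem_ofPred_eq, PiLp.smul_apply, smul_eq_mul, abs_mul, abs_of_pos hci]
  rw [← mul_add, ← mul_add, inv_mul_le_iff₀ hc, mul_one]

theorem vol_Oct {c : ℝ} (hc : 0 < c) :
    volume (Oct c) = ENNReal.ofReal (c ^ 3) * volume (Oct 1) := by
  rw [Oct_smul hc, Measure.addHaar_smul]
  simp [abs_of_pos hc]

theorem bounded_Oct (c : ℝ) : Bornology.IsBounded (Oct c) := by
  refine (Metric.isBounded_closedBall (x := (0 : E3)) (r := |c|)).subset ?_
  intro x hx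
  have hx' : |x 0| + |x 1| + |x 2| ≤ c := hx
  have h0 := abs_nonneg (x 0)
  have h1 := abs_nonneg (x 1)
  have h2 := abs_nonneg (x 2)
  have hc : 0 ≤ c := by linarith
  rw [mem_closedBall_zero_iff, EuclideanSpace.norm_eq, Fin.sum_univ_three,
    Real.sqrt_le_left (abs_nonneg c), abs_of_nonneg hc]
  simp only [Real.norm_eq_abs]
  nlinarith [mul_nonneg h0 h1, mul_nonneg h1 h2, mul_nonneg h0 h2]

theorem compact_Oct (c : ℝ) : IsCompact (Oct c) :=
  Metric.isCompact_of_isClosed_isBounded (isClosed_Oct c) (bounded_Oct c)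

theorem compact_Tr : IsCompact Tr :=
  (compact_Oct 1).of_isClosed_subset isClosed_Tr (fun _ hx => hx.1)

theorem int_Oct {c : ℝ} (hc : 0 < c) : (interior (Oct c)).Nonempty := by
  refine ⟨0, ?_⟩
  rw [mem_interior]
  refine ⟨{x : E3 | |x 0| + |x 1| + |x 2| < c}, fun y hy => ?_,
    isOpen_lt (by fun_prop) continuous_const, ?_⟩
  · have hy' : |y 0| + |y 1| + |y 2| < c := hy
    exact hy'.le
  simpa using hc

theorem int_Tr : (interior Tr).Nonempty := by
  refine (int_Oct (by norm_num : (0 : ℝ) < 1 / 2)).mono (interior_mono ?_)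
  intro x hx
  have hx' : |x 0| + |x 1| + |x 2| ≤ 1 / 2 := hx
  have h0 := abs_nonneg (x 0)
  have h1 := abs_nonneg (x 1)
  have h2 := abs_nonneg (x 2)
  exact ⟨by linarith, by linarith, by linarith, by linarith⟩

theorem convex_Oct (c : ℝ) : Convex ℝ (Oct c) := by
  intro x hx y hy a b ha hb hab
  have hx' : |x 0| + |x 1| + |x 2| ≤ c := hx
  have hy' : |y 0| + |y 1| + |y 2| ≤ c := hy
  have key : ∀ i, |(a • x + b • y) i| ≤ a * |x i| + b * |y i| := by
    intro i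
    calc |(a • x + b • y) i| = |a * x i + b * y i| := rfl
      _ ≤ |a * x i| + |b * y i| := abs_add_le _ _
      _ = _ := by rw [abs_mul, abs_mul, abs_of_nonneg ha, abs_of_nonneg hb]
  show |(a • x + b • y) 0| + |(a • x + b • y) 1| + |(a • x + b • y) 2| ≤ c
  have k0 := key 0
  have k1 := key 1
  have k2 := key 2
  have : c = a * c + b * c := by rw [← add_mul, hab, one_mul]
  nlinarith [mul_le_mul_of_nonneg_left hx' ha, mul_le_mul_of_nonneg_left hy' hb]

theorem convex_Tr : Convex ℝ Tr := by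
  intro x hx y hy a b ha hb hab
  have key : ∀ i, |(a • x + b • y) i| ≤ a * |x i| + b * |y i| := by
    intro i
    calc |(a • x + b • y) i| = |a * x i + b * y i| := rfl
      _ ≤ |a * x i| + |b * y i| := abs_add_le _ _
      _ = _ := by rw [abs_mul, abs_mul, abs_of_nonneg ha, abs_of_nonneg hb]
  have k2 : ∀ i, |x i| ≤ 5 / 6 → |y i| ≤ 5 / 6 → |(a • x + b • y) i| ≤ 5 / 6 := by
    intro i h1 h2
    have := key i
    nlinarith [mul_le_mul_of_nonneg_left h1 ha, mul_le_mul_of_nonneg_left h2 hb]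
  exact ⟨convex_Oct 1 hx.1 hy.1 ha hb hab, k2 0 hx.2.1 hy.2.1, k2 1 hx.2.2.1 hy.2.2.1,
    k2 2 hx.2.2.2 hy.2.2.2⟩

theorem neg_Oct (c : ℝ) : -Oct c = Oct c := by
  ext x
  simp [Oct, abs_neg]

theorem neg_Tr : -Tr = Tr := by
  ext x
  simp [Tr, abs_neg]

/-- The caps cut off. -/
theorem vol_cap (i : Fin 3) (s : Bool) :
    volume {x : E3 | x ∈ Oct 1 ∧ 5 / 6 < sg s * x i} ≤
      ENNReal.ofReal ((1 / 6) ^ 3) * volume (Oct 1) := by
  have hsub : {x : E3 | x ∈ Oct 1 ∧ 5 / 6 < sg s * x i} ⊆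
      (fun x : E3 => EuclideanSpace.single i (-(5 / 6) * sg s) + x) ⁻¹' (Oct (1 / 6)) := by
    rintro x ⟨hx, h5⟩
    have hx' : |x 0| + |x 1| + |x 2| ≤ 1 := hx
    have key : |(-(5 / 6) * sg s) + x i| = |x i| - 5 / 6 := by
      cases s
      · rw [sg_false] at h5 ⊢
        rw [abs_of_neg (by linarith : x i < 0), abs_of_neg (by linarith)]
        ring
      · rw [sg_true] at h5 ⊢
        rw [abs_of_pos (by linarith : 0 < x i), abs_of_pos (by linarith)]
        ring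
    show |(EuclideanSpace.single i (-(5 / 6) * sg s) + x) 0| +
      |(EuclideanSpace.single i (-(5 / 6) * sg s) + x) 1| +
      |(EuclideanSpace.single i (-(5 / 6) * sg s) + x) 2| ≤ 1 / 6
    simp only [PiLp.add_apply]
    fin_cases i
    · simp at key ⊢
      rw [key]
      linarith
    · simp at key ⊢
      rw [key]
      linarith
    · simp at key ⊢
      rw [key]
      linarith
  refine (measure_mono hsub).trans ?_
  rw [measure_preimage_add, vol_Oct (by norm_num)]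

theorem vol_lt : volume (Oct (99 / 100)) < volume Tr := by
  have hV0 : 0 < volume (Oct 1) :=
    lt_of_lt_of_le (isOpen_interior.measure_pos volume (int_Oct one_pos))
      (measure_mono interior_subset)
  have hVt : volume (Oct 1) ≠ ∞ := (bounded_Oct 1).measure_lt_top.ne
  have hsub : Oct 1 ⊆ Tr ∪ ⋃ k : Fin 3 × Bool, {x : E3 | x ∈ Oct 1 ∧ 5 / 6 < sg k.2 * x k.1} := by
    intro x hx
    by_cases h : ∀ i, |x i| ≤ 5 / 6
    · left
      exact ⟨hx, h 0, h 1, h 2⟩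
    · right
      push Not at h
      obtain ⟨i, hi⟩ := h
      obtain ⟨s, hs⟩ := sg_mul_abs (x i)
      rw [mem_iUnion]
      refine ⟨(i, s), hx, ?_⟩
      show 5 / 6 < sg s * x i
      rw [← hs, ← mul_assoc, sg_sq, one_mul]
      exact hi
  have h1 : volume (Oct 1) ≤ volume Tr + 6 * (ENNReal.ofReal ((1 / 6) ^ 3) * volume (Oct 1)) := by
    refine (measure_mono hsub).trans ((measure_union_le _ _).trans ?_)
    refine add_le_add le_rfl ((measure_iUnion_fintype_le _ _).trans ?_)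
    refine (Finset.sum_le_sum (fun k _ => vol_cap k.1 k.2)).trans ?_
    simp
  have hTt : volume Tr ≠ ∞ := compact_Tr.measure_lt_top.ne
  rw [vol_Oct (by norm_num)]
  obtain ⟨v, hv⟩ : ∃ v : ℝ, 0 ≤ v ∧ volume (Oct 1) = ENNReal.ofReal v :=
    ⟨(volume (Oct 1)).toReal, ENNReal.toReal_nonneg, (ENNReal.ofReal_toReal hVt).symm⟩
  obtain ⟨w, hw⟩ : ∃ w : ℝ, 0 ≤ w ∧ volume Tr = ENNReal.ofReal w :=
    ⟨(volume Tr).toReal, ENNReal.toReal_nonneg, (ENNReal.ofReal_toReal hTt).symm⟩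
  rw [hv.2] at h1 hV0 ⊢
  rw [hw.2] at h1 ⊢
  have hvpos : 0 < v := ENNReal.ofReal_pos.mp hV0
  have h6 : (6 : ℝ≥0∞) = ENNReal.ofReal 6 := by rw [ENNReal.ofReal_ofNat]
  rw [h6, ← ENNReal.ofReal_mul (by positivity), ← ENNReal.ofReal_mul (by norm_num),
    ← ENNReal.ofReal_add hw.1 (by positivity),
    ENNReal.ofReal_le_ofReal_iff (by have := hw.1; positivity)] at h1
  rw [← ENNReal.ofReal_mul (by positivity), ENNReal.ofReal_lt_ofReal_iff_of_nonneg (by positivity)]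
  nlinarith

/-- The negative answer in dimension three. -/
theorem main : ∃ C₁ C₂ : Set E3,
    (Convex ℝ C₁ ∧ IsCompact C₁ ∧ (interior C₁).Nonempty ∧ -C₁ = C₁) ∧
    (Convex ℝ C₂ ∧ IsCompact C₂ ∧ (interior C₂).Nonempty ∧ -C₂ = C₂) ∧
    (∀ A : E3 ≃ᵃ[ℝ] E3, μHE[2] (frontier (A '' C₁)) ≤ μHE[2] (frontier (A '' C₂))) ∧
    volume C₂ < volume C₁ :=
  ⟨Tr, Oct (99 / 100), ⟨convex_Tr, compact_Tr, int_Tr, neg_Tr⟩,
    ⟨convex_Oct _, compact_Oct _, int_Oct (by norm_num), neg_Oct _⟩, domination, vol_lt⟩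

end Pool.Agent.Y511.SurfDom
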